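import Mathlib

/-!
# A criterion for toric ideals to need generators of high degree

If the fibre of a monomial `u` of degree `d` under a monomial map consists of exactly two monomials
`u`, `v` with disjoint supports, then every generating set of the kernel has an element of
degree at least `d`.
-/

set_option autoImplicit false

namespace Q268.TM

open MvPolynomial

variable {σ τ K : Type*} [Field K]

/-- exponent of the image of a monomial -/
noncomputable def img (φ : σ → τ →₀ ℕ) (m : σ →₀ ℕ) : τ →₀ ℕ := m.sum (fun i k => k • φ i)

theorem img_add (φ : σ → τ →₀ ℕ) (m m' : σ →₀ ℕ) : img φ (m + m') = img φ m + img φ m' := by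
  unfold img
  classical
  exact Finsupp.sum_add_index' (by simp) (by intro i a b; exact add_smul _ _ _)

/-- the monomial map -/
noncomputable def mmap (K : Type*) [Field K] (φ : σ → τ →₀ ℕ) :
    MvPolynomial σ K →ₐ[K] MvPolynomial τ K :=
  aeval (fun i => monomial (φ i) (1 : K))

theorem mmap_monomial (φ : σ → τ →₀ ℕ) (m : σ →₀ ℕ) (c : K) :
    mmap K φ (monomial m c) = monomial (img φ m) c := by
  unfold mmap img
  rw [aeval_monomial]
  classical
  induction m using Finsupp.induction generalizing c with
  | zero =>
    rw [Finsupp.prod_zero_index, Finsupp.sum_zero_index, mul_one, algebraMap_eq]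
    rfl
  | single_add i b f hi hb ih =>
    rw [Finsupp.prod_add_index' (by simp) (by intro a b c; exact pow_add _ _ _)]
    rw [Finsupp.sum_add_index' (by simp) (by intro i a b; exact add_smul _ _ _)]
    rw [mul_left_comm, ih]
    rw [Finsupp.prod_single_index (by simp), Finsupp.sum_single_index (by simp)]
    rw [monomial_pow, one_pow, monomial_mul, one_mul]

theorem coeff_mmap (φ : σ → τ →₀ ℕ) (f : MvPolynomial σ K) (t : τ →₀ ℕ) [DecidableEq τ] :
    coeff t (mmap K φ f) = ∑ m ∈ f.support, if img φ m = t then coeff m f else 0 := by
  conv_lhs => rw [f.as_sum]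
  rw [map_sum, coeff_sum]
  apply Finset.sum_congr rfl
  intro m _
  rw [mmap_monomial, coeff_monomial]

theorem exists_large_degree (φ : σ → τ →₀ ℕ) (u v : σ →₀ ℕ) (huv : u ≠ v)
    (himg : img φ u = img φ v)
    (hfib : ∀ m : σ →₀ ℕ, img φ m = img φ u → m = u ∨ m = v)
    (hdisj : ∀ i, u i = 0 ∨ v i = 0)
    (S : Set (MvPolynomial σ K))
    (hS : Ideal.span S = RingHom.ker (mmap K φ)) :
    ∃ f ∈ S, u.sum (fun _ k => k) ≤ f.totalDegree := by
  classical
  by_contra hcon
  push Not at hcon
  have key : ∀ f ∈ S, ∀ u' w : σ →₀ ℕ, w + u' = u → coeff u' f = 0 := by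
    intro f hf u' w hw
    by_cases hw0 : w = 0
    · subst hw0
      rw [zero_add] at hw
      subst hw
      apply coeff_eq_zero_of_totalDegree_lt
      exact hcon f hf
    · have hker : mmap K φ f = 0 := by
        have : f ∈ RingHom.ker (mmap K φ) := hS ▸ Ideal.subset_span hf
        exact this
      have hc := coeff_mmap φ f (img φ u')
      rw [hker, coeff_zero] at hc
      have huniq : ∀ m : σ →₀ ℕ, img φ m = img φ u' → m = u' := by
        intro m hm
        have h1 : img φ (w + m) = img φ u := by
          rw [← hw, img_add, img_add, hm]
        rcases hfib _ h1 with h2 | h2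
        · rw [← hw] at h2
          exact add_left_cancel h2
        · exfalso
          apply hw0
          ext i
          have hu : w i ≤ u i := by rw [← hw]; simp
          have hv : w i ≤ v i := by rw [← h2]; simp
          rcases hdisj i with h | h
          · simpa [h] using hu
          · simpa [h] using hv
      have hc2 : (∑ m ∈ f.support, if img φ m = img φ u' then coeff m f else 0) = coeff u' f := by
        rw [Finset.sum_eq_single u']
        · simp
        · intro m _ hm
          rw [if_neg]
          intro h
          exact hm (huniq m h)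
        · intro h
          simpa using h
      rw [hc2] at hc
      exact hc.symm
  have key2 : ∀ p ∈ Ideal.span S, ∀ g : MvPolynomial σ K, coeff u (g * p) = 0 := by
    intro p hp
    induction hp using Submodule.span_induction with
    | mem x hx =>
      intro g
      rw [coeff_mul]
      apply Finset.sum_eq_zero
      intro x' hx'
      rw [Finset.HasAntidiagonal.mem_antidiagonal] at hx'
      rw [key x hx x'.2 x'.1 hx', mul_zero]
    | zero => intro g; simp
    | add x y _ _ hx hy => intro g; rw [mul_add, coeff_add, hx g, hy g, add_zero]
    | smul a x _ hx => intro g; rw [smul_eq_mul, ← mul_assoc]; exact hx _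
  have hmem : (monomial u (1 : K) - monomial v 1) ∈ Ideal.span S := by
    rw [hS, RingHom.mem_ker, map_sub, mmap_monomial, mmap_monomial, himg, sub_self]
  have h3 := key2 _ hmem 1
  rw [one_mul, coeff_sub, coeff_monomial, coeff_monomial, if_pos rfl, if_neg (Ne.symm huv),
    sub_zero] at h3
  exact one_ne_zero h3

end Q268.TM
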